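import Pool.Agent.Helper69.TPF.St2

/-! Module FRC of project TPF: tuples from a free group have trivial class. -/

set_option autoImplicit false

open scoped commutatorElement

namespace Pool.Agent.Helper10.TPF

open Pool.Agent.Helper69.TPF
open Pool.Agent.Helper6.TS

theorem cFRC (cen : St_CEN) : St_FRC := by
  intro g m α Γ G _ _ _ p hp hker hcard φ z hz s hs
  choose q hq using fun a : α => hp (φ (FreeGroup.of a))
  have h1 : p.comp (FreeGroup.lift q) = φ := by
    ext a
    simp [hq]
  have h2 : ∀ x, p (FreeGroup.lift q x) = φ x := fun x => by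
    rw [← h1]
    rfl
  have h3 : Rel s = Rel (fun i => FreeGroup.lift q (z i)) :=
    cen g Γ G p hker s (fun i => FreeGroup.lift q (z i)) (fun i => by rw [hs, h2])
  rw [h3, ← Rel_map (FreeGroup.lift q) z]
  exact lev_kill (FreeGroup.lift q) hcard hz

end Pool.Agent.Helper10.TPF
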